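import Mathlib
import Pool.Agent.Helper93.UBr.Comb

/-! Unipotent Brauer groups with exactly two exponents, `1` and `N`. -/

namespace Pool.Agent.Results.MP_733fad_ag.TwoExponents

open Pool.Agent.Helper93.UBr

universe u

/-- For every prime `p`, every algebraically closed field `k` of characteristic `p` and every
`N ≥ 2` there is a quasi-polarized Dieudonne module `D` over `k` of rank `2g`,
`g = (N + 1)(2N + 1)`, whose group `U_D` (the cokernel of `F/p - 1 : F¹_N H → H`, `H = ∧² D`) is
isogenous to `(W_1)^(2N(N+1)) × (W_N)^((N+1)(2N+1))`. For `N ≥ 3` the isogeny type therefore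
contains `N` but none of `2, …, N - 1`. -/
theorem result (p : ℕ) [Fact p.Prime] (k : Type u) [Field k] [CharP k p] [IsAlgClosed k]
    (N : ℕ) (hN : 2 ≤ N) :
    ∃ (ι : Type) (_ : Fintype ι) (_ : DecidableEq ι) (D : DMod p k ι),
      Fintype.card ι = 2 * ((N + 1) * (2 * N + 1)) ∧ D.QuasiPolarized ∧
      Isogenous D (Sum.elim (fun _ : Fin (2 * N * (N + 1)) => 1)
        (fun _ : Fin ((N + 1) * (2 * N + 1)) => N)) := by
  obtain ⟨D, h1, h2⟩ := exists_two_exponents p k N hN
  refine ⟨_, inferInstance, inferInstance, D, ?_, h1, h2⟩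
  rw [Fintype.card_sum, ZMod.card]
  ring

end Pool.Agent.Results.MP_733fad_ag.TwoExponents
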